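import Pool.Agent.H837R2.Jones.Final

set_option autoImplicit false

open Pool.Agent.H837R2.Jones

namespace Pool.Agent.Results.MP_833722_gt.InfiniteSpan

/-- The Jones polynomial `V` of oriented links exists, and for every `n ≥ 2` there are infinitely
many pairwise distinct Jones polynomials of span `n` of links. So the answer to Q1 is negative. -/
theorem result :
    (∃ V : OWord → R, IsJones V) ∧
      ∀ V : OWord → R, IsJones V → ∀ n : ℕ, 2 ≤ n → (jonesOfSpan V n).Infinite :=
  ⟨⟨V0, V0_isJones⟩, fun _ hV n hn => infinite_span hV n hn⟩

end Pool.Agent.Results.MP_833722_gt.InfiniteSpan
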